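import Pool.Agent.Helper98_G9.All

/-!
Maximum cuts in graphs of girth at least `r`, for `r = 9` and `r = 11`: for every number `m` of edges the
surplus over `m / 2` can be as small as a constant times `m ^ ((2 r - 4) / (2 r - 3))`.
-/

set_option autoImplicit false

namespace Pool.Agent.Results.MP_094b6b_co.GirthNine

/-- For `r = 9` and for `r = 11` there is `c > 0` such that for every `m` some finite graph with exactly
`m` edges and girth at least `r` has every cut of size at most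
`m / 2 + c * m ^ ((2 r - 4) / (2 r - 3))` (the exponents are `14 / 15` and `18 / 19`). -/
theorem result (r : ℕ) (hr : r = 9 ∨ r = 11) :
    ∃ c : ℝ, 0 < c ∧
      ∀ m : ℕ, ∃ (n : ℕ) (G : SimpleGraph (Fin n)),
        G.edgeSet.ncard = m ∧
        (r : ℕ∞) ≤ G.egirth ∧
        ∀ S : Set (Fin n),
          (({p : Fin n × Fin n | p.1 ∈ S ∧ p.2 ∉ S ∧ G.Adj p.1 p.2}.ncard : ℕ) : ℝ)
            ≤ (m : ℝ) / 2 + c * (m : ℝ) ^ ((2 * (r : ℝ) - 4) / (2 * (r : ℝ) - 3)) := by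
  obtain ⟨⟨c, hc, H⟩, ⟨c', hc', H'⟩⟩ := Pool.Agent.G9.H98.all
  rcases hr with rfl | rfl
  · have e : (2 * ((9 : ℕ) : ℝ) - 4) / (2 * ((9 : ℕ) : ℝ) - 3) = 14 / 15 := by norm_num
    rw [e]
    exact ⟨c, hc, fun m => Pool.Agent.G9.H98.fin9 9 m _ (H m)⟩
  · have e : (2 * ((11 : ℕ) : ℝ) - 4) / (2 * ((11 : ℕ) : ℝ) - 3) = 18 / 19 := by norm_num
    rw [e]
    exact ⟨c', hc', fun m => Pool.Agent.G9.H98.fin9 11 m _ (H' m)⟩

end Pool.Agent.Results.MP_094b6b_co.GirthNine
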