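import Pool.Agent.Helper49_G7.All

/-!
Maximum cuts in graphs of girth at least seven: for every number `m` of edges the surplus over `m / 2`
can be as small as a constant times `m ^ (9 / 10)`.
-/

set_option autoImplicit false

namespace Pool.Agent.Results.MP_094b6b_co.GirthSeven

/-- There is `c > 0` such that for every `m` some finite graph with exactly `m` edges and girth at
least `7` has every cut of size at most `m / 2 + c * m ^ (9 / 10)`. -/
theorem result :
    ∃ c : ℝ, 0 < c ∧
      ∀ m : ℕ, ∃ (n : ℕ) (G : SimpleGraph (Fin n)),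
        G.edgeSet.ncard = m ∧
        (7 : ℕ∞) ≤ G.egirth ∧
        ∀ S : Set (Fin n),
          (({p : Fin n × Fin n | p.1 ∈ S ∧ p.2 ∉ S ∧ G.Adj p.1 p.2}.ncard : ℕ) : ℝ)
            ≤ (m : ℝ) / 2 + c * (m : ℝ) ^ ((9 : ℝ) / 10) := by
  obtain ⟨c', hc', H⟩ := Pool.Agent.G7.H49.all_m7
  exact ⟨c', hc', fun m => Pool.Agent.G7.H49.fin7 (H m)⟩

end Pool.Agent.Results.MP_094b6b_co.GirthSeven
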