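import Pool.Agent.Helper74_MC.Cut
import Pool.Agent.Helper74_MC.AllM
import Pool.Agent.Helper62_SLICE
import Pool.Agent.Helper62_FIN

/-!
Maximum cuts in graphs of girth at least six: for every number `m` of edges the surplus over `m / 2`
can be as small as a constant times `m ^ (7 / 8)`.
-/

set_option autoImplicit false

namespace Pool.Agent.Results.MP_094b6b_co.GirthSix

open Pool.Agent.MC.H74

/-- There is `c > 0` such that for every `m` some finite graph with exactly `m` edges and girth at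
least `6` has every cut of size at most `m / 2 + c * m ^ (7 / 8)`. -/
theorem result :
    ∃ c : ℝ, 0 < c ∧
      ∀ m : ℕ, ∃ (n : ℕ) (G : SimpleGraph (Fin n)),
        G.edgeSet.ncard = m ∧
        (6 : ℕ∞) ≤ G.egirth ∧
        ∀ S : Set (Fin n),
          (({p : Fin n × Fin n | p.1 ∈ S ∧ p.2 ∉ S ∧ G.Adj p.1 p.2}.ncard : ℕ) : ℝ)
            ≤ (m : ℝ) / 2 + c * (m : ℝ) ^ ((7 : ℝ) / 8) := by
  have hS : SliceStmt := by
    intro F _ _ a x ha hx
    exact Pool.Agent.Helper62SL.slice a x ha hx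
  obtain ⟨c', hc', H⟩ := all_m (1 / 8) 4 10 (by norm_num) (by norm_num) (by
    intro p hp10 hp
    haveI : Fact p.Prime := ⟨hp⟩
    obtain ⟨e, h1, h2, h3⟩ := main_p (p := p) hS (by omega)
    refine ⟨e, h1, ?_, h3⟩
    refine le_trans ?_ h2
    have h10 : (10 : ℝ) ≤ p := by exact_mod_cast hp10
    have h7 : (0 : ℝ) ≤ (p : ℝ) ^ 7 := by positivity
    nlinarith)
  refine ⟨c', hc', fun m => ?_⟩
  exact Pool.Agent.Helper62FIN.fin (H m)

end Pool.Agent.Results.MP_094b6b_co.GirthSix
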